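import Pool.Agent.Helper41.LD6.Defs
import Pool.Agent.Helper59.PP.Zs
import Pool.Agent.Helper59.PP.TrapB

/-!
# Project LD6, block T2: an interval between two trigonometric polynomials
-/

set_option autoImplicit false

namespace Pool.Agent.Helper32.LD6

open Set MeasureTheory Filter Topology
open Pool.Agent.Helper41.LD6
open Pool.Agent.Helper59.RE (e)
open Pool.Agent.Helper59.PP

theorem tz_meas (a b δ : ℝ) : Measurable (tz a b δ) := by
  have hB : Measurable Bt := by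
    unfold Bt
    exact (((measurable_fract.pow_const 2).sub measurable_fract).add_const _).div_const _
  unfold tz
  have h : ∀ s : ℝ, Measurable fun x => Bt (x - s) := fun s => hB.comp (measurable_id.sub_const s)
  exact measurable_const.sub (((((h _).sub (h _)).sub (h _)).add (h _)).div_const _)

theorem tz_tail {a b δ : ℝ} (hab : a ≤ b) (hδ : 0 < δ) (h1 : b - a + 2 * δ ≤ 1) {N : ℕ} (hN : 1 ≤ N) (y : ℝ) :
    ‖((tz a b δ y : ℝ) : ℂ) - ∑ m ∈ Finset.Icc (-(N : ℤ)) N, tzc a b δ m * e (m * y)‖ ≤ 4 / (δ * N) := by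
  have hd : (1 : ℝ) ≤ 1 / δ := by
    rw [le_div_iff₀ hδ]
    linarith
  have hK : Ker (b - a + δ) (1 / δ) 1 (tz a b δ) (tzc a b δ) := by
    refine ⟨fun x => (tz_nn a b δ hab hδ h1 x).1, fun x => (tz_nn a b δ hab hδ h1 x).2.trans hd, ?_, ?_, ?_, tz_sum a b δ hδ⟩
    · simp [tzc]
    · intro h
      rw [Nat.cast_one, div_one]
      exact (tzc_le a b δ hab hδ h).trans (by linarith)
    · intro h h0
      refine (tzc_le2 a b δ hδ h h0).trans (le_of_eq ?_)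
      rw [Nat.cast_one, mul_one, div_div]
  have h2 := tail1 hK (by positivity) N hN y
  have hI : ∑ h ∈ Finset.Icc (-(N : ℤ)) N, tzc a b δ h * e (h * y) = tzc a b δ 0 + ∑ h ∈ hs N, tzc a b δ h * e (h * y) := by
    have h0 : (0 : ℤ) ∈ Finset.Icc (-(N : ℤ)) N := by
      rw [Finset.mem_Icc]
      omega
    rw [← Finset.add_sum_erase _ _ h0]
    have e0 : e (((0 : ℤ) : ℝ) * y) = 1 := by
      rw [Int.cast_zero, zero_mul]
      simp [Pool.Agent.Helper59.RE.e]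
    rw [e0, mul_one]
    rfl
  rw [hI]
  refine h2.trans ?_
  have hN0 : (0 : ℝ) < N := by exact_mod_cast hN
  have e1 : 2 * (1 / δ) * ((1 : ℕ) : ℝ) / N = 2 / (δ * N) := by
    rw [Nat.cast_one]
    field_simp
  rw [e1]
  exact div_le_div_of_nonneg_right (by norm_num) (by positivity)

theorem bx_nn (α γ y : ℝ) : 0 ≤ bx α γ y ∧ bx α γ y ≤ 1 := by
  unfold bx
  split_ifs <;> norm_num

/-- **T2** -/
theorem trig_app {α γ δ : ℝ} (h0 : 0 ≤ α) (h1 : α ≤ γ) (h2 : γ ≤ 1) (hδ : 0 < δ) (hδ1 : δ ≤ 1 / 8) {N : ℕ} (hN : 1 ≤ N) :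
    ∃ (g g' : ℝ → ℝ) (c c' : ℤ → ℂ), Measurable g ∧ Measurable g' ∧ (∀ y, 0 ≤ g y ∧ g y ≤ bx α γ y ∧ bx α γ y ≤ g' y ∧ g' y ≤ 1) ∧
      (∀ y, ‖(g y : ℂ) - ∑ m ∈ Finset.Icc (-(N : ℤ)) N, c m * e (m * y)‖ ≤ 4 / (δ * N)) ∧
      (∀ y, ‖(g' y : ℂ) - ∑ m ∈ Finset.Icc (-(N : ℤ)) N, c' m * e (m * y)‖ ≤ 4 / (δ * N)) ∧
      (∀ m, ‖c m‖ ≤ 1) ∧ (∀ m, ‖c' m‖ ≤ 1) ∧ ‖c 0 - ((γ - α : ℝ) : ℂ)‖ ≤ 2 * δ ∧ ‖c' 0 - ((γ - α : ℝ) : ℂ)‖ ≤ 2 * δ := by
  have hpos : 0 ≤ 4 / (δ * N) := by positivity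
  -- the lower function
  have low : ∃ (g : ℝ → ℝ) (c : ℤ → ℂ), Measurable g ∧ (∀ y, 0 ≤ g y ∧ g y ≤ bx α γ y) ∧
      (∀ y, ‖(g y : ℂ) - ∑ m ∈ Finset.Icc (-(N : ℤ)) N, c m * e (m * y)‖ ≤ 4 / (δ * N)) ∧
      (∀ m, ‖c m‖ ≤ 1) ∧ ‖c 0 - ((γ - α : ℝ) : ℂ)‖ ≤ 2 * δ := by
    by_cases h : 2 * δ ≤ γ - α
    · have hab : α + δ ≤ γ - δ := by linarith
      have h3 : (γ - δ) - (α + δ) + 2 * δ ≤ 1 := by linarith
      refine ⟨tz (α + δ) (γ - δ) δ, tzc (α + δ) (γ - δ) δ, tz_meas _ _ _, fun y => ⟨(tz_nn _ _ _ hab hδ h3 y).1, ?_⟩,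
        tz_tail hab hδ h3 hN, fun m => (tzc_le _ _ _ hab hδ m).trans (by linarith), ?_⟩
      · by_cases h4 : tz (α + δ) (γ - δ) δ y = 0
        · rw [h4]
          exact (bx_nn _ _ _).1
        · obtain ⟨m, h5, h6⟩ := tz_supp _ _ _ hab hδ h3 y h4
          have h7 : Int.fract y = y + m := by
            rw [Int.fract_eq_iff]
            refine ⟨by linarith, by linarith, -m, ?_⟩
            push_cast
            ring
          have h8 : bx α γ y = 1 := by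
            unfold bx
            rw [if_pos]
            rw [h7]
            constructor <;> linarith
          rw [h8]
          exact (tz_nn _ _ _ hab hδ h3 y).2
      · have e1 : tzc (α + δ) (γ - δ) δ 0 = ((γ - δ - (α + δ) + δ : ℝ) : ℂ) := by simp [tzc]
        rw [e1, ← Complex.ofReal_sub, Complex.norm_real, Real.norm_eq_abs]
        rw [show γ - δ - (α + δ) + δ - (γ - α) = -δ by ring, abs_neg, abs_of_pos hδ]
        linarith
    · refine ⟨fun _ => 0, fun _ => 0, measurable_const, fun y => ⟨le_rfl, (bx_nn _ _ _).1⟩, fun y => ?_, fun m => by simp, ?_⟩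
      · simpa using hpos
      · rw [zero_sub, norm_neg, Complex.norm_real, Real.norm_eq_abs, abs_of_nonneg (by linarith)]
        linarith
  -- the upper function
  have upp : ∃ (g : ℝ → ℝ) (c : ℤ → ℂ), Measurable g ∧ (∀ y, bx α γ y ≤ g y ∧ g y ≤ 1) ∧
      (∀ y, ‖(g y : ℂ) - ∑ m ∈ Finset.Icc (-(N : ℤ)) N, c m * e (m * y)‖ ≤ 4 / (δ * N)) ∧
      (∀ m, ‖c m‖ ≤ 1) ∧ ‖c 0 - ((γ - α : ℝ) : ℂ)‖ ≤ 2 * δ := by
    by_cases h : γ - α + 2 * δ ≤ 1
    · refine ⟨tz α γ δ, tzc α γ δ, tz_meas _ _ _, fun y => ⟨?_, (tz_nn _ _ _ h1 hδ h y).2⟩,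
        tz_tail h1 hδ h hN, fun m => (tzc_le _ _ _ h1 hδ m).trans (by linarith), ?_⟩
      · unfold bx
        split_ifs with h4
        · have h5 : y + ((-⌊y⌋ : ℤ) : ℝ) = Int.fract y := by
            rw [Int.fract]
            push_cast
            ring
          rw [tz_one α γ δ h1 hδ h y (-⌊y⌋) (by rw [h5]; exact h4.1) (by rw [h5]; exact h4.2.le)]
        · exact (tz_nn _ _ _ h1 hδ h y).1
      · have e1 : tzc α γ δ 0 = ((γ - α + δ : ℝ) : ℂ) := by simp [tzc]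
        rw [e1, ← Complex.ofReal_sub, Complex.norm_real, Real.norm_eq_abs]
        rw [show γ - α + δ - (γ - α) = δ by ring, abs_of_pos hδ]
        linarith
    · refine ⟨fun _ => 1, fun m => if m = 0 then 1 else 0, measurable_const, fun y => ⟨(bx_nn _ _ _).2, le_rfl⟩, fun y => ?_,
        fun m => by by_cases hm : m = 0 <;> simp [hm], ?_⟩
      · have hs0 : (0 : ℤ) ∈ Finset.Icc (-(N : ℤ)) N := by
          rw [Finset.mem_Icc]
          omega
        have hsum : ∑ m ∈ Finset.Icc (-(N : ℤ)) N, (if m = 0 then (1 : ℂ) else 0) * e (m * y) = 1 := by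
          rw [Finset.sum_eq_single_of_mem 0 hs0]
          · rw [if_pos rfl, Int.cast_zero, zero_mul]
            simp [Pool.Agent.Helper59.RE.e]
          · intro m _ hm
            rw [if_neg hm, zero_mul]
        rw [hsum]
        simpa using hpos
      · show ‖(if (0 : ℤ) = 0 then (1 : ℂ) else 0) - ((γ - α : ℝ) : ℂ)‖ ≤ 2 * δ
        rw [if_pos rfl, ← Complex.ofReal_one, ← Complex.ofReal_sub, Complex.norm_real, Real.norm_eq_abs, abs_of_nonneg (by linarith)]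
        linarith
  obtain ⟨g, c, hg1, hg2, hg3, hg4, hg5⟩ := low
  obtain ⟨g', c', hg1', hg2', hg3', hg4', hg5'⟩ := upp
  exact ⟨g, g', c, c', hg1, hg1', fun y => ⟨(hg2 y).1, (hg2 y).2, (hg2' y).1, (hg2' y).2⟩, hg3, hg3', hg4, hg4', hg5, hg5'⟩

end Pool.Agent.Helper32.LD6
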